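import Mathlib
import Pool.Agent.Helper74.FB.Fin
import Pool.Agent.Helper74.FB.Crt

/-! # Clusters of prime values of `F(m) + k` for a positive proportion of the constants `k`

`F` is an integer polynomial of degree `d ≥ 1`, for instance `m ^ 3`; `T` groups of `K` shifts `h`. For a
positive proportion of the `k ≤ X` many `m` of an arbitrary dense set of arguments `m ≤ Y` (where `Y` may be
as small as a power of `log X`) are such that at least `5 T / 18` of the groups contain a shift `h` with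
`F (m + h) + k` prime. -/

set_option autoImplicit false

namespace Pool.Agent.Results.MP_4d57ea_nt.ClustersOfPrimeValues

open Finset Filter Topology Polynomial

/-- the integer `z` is a positive prime -/
def IsPrime (z : ℤ) : Prop := ∃ q : ℕ, q.Prime ∧ (q : ℤ) = z

/-- the integer `z` is `> 1` and has at most `r` prime factors, counted with multiplicity -/
def AlmostPrime (r : ℕ) (z : ℤ) : Prop := ∃ q : ℕ, 1 < q ∧ (q : ℤ) = z ∧ q.primeFactorsList.length ≤ r

/-- the argument `m` is admissible for the shifts `h`: for every prime `p` there is a constant `k` such that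
none of the numbers `F (m + h g i) + k` is divisible by `p` -/
def Admissible {T K : ℕ} (F : ℤ[X]) (h : Fin T → Fin K → ℕ) (m : ℕ) : Prop :=
  ∀ p : ℕ, p.Prime → ∃ k : ℤ, ∀ g i, ¬ (p : ℤ) ∣ F.eval ((m : ℤ) + h g i) + k

open Classical in
/-- the `m ∈ R` such that `F (m + h g (σ g)) + k` is prime for all `g ∈ S`, `F (m + h g (τ g)) + k` has at
most two prime factors for every group `g`, and all `F (m + h g i) + k` have at most `r` prime factors -/
noncomputable def cluster {T K : ℕ} (F : ℤ[X]) (h : Fin T → Fin K → ℕ) (r : ℕ) (S : Finset (Fin T))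
    (σ τ : Fin T → Fin K) (k : ℕ) (R : Finset ℕ) : Finset ℕ :=
  R.filter (fun m : ℕ => (∀ g ∈ S, IsPrime (F.eval ((m : ℤ) + h g (σ g)) + k)) ∧
    (∀ g, AlmostPrime 2 (F.eval ((m : ℤ) + h g (τ g)) + k)) ∧
    ∀ g i, AlmostPrime r (F.eval ((m : ℤ) + h g i) + k))

open Classical in
/-- **Clusters of prime values of `F(m) + k`.** -/
theorem result (T : ℕ) (hT : 1 ≤ T) : ∃ K : ℕ, 1 ≤ K ∧ ∃ r : ℕ, ∀ F : ℤ[X], 1 ≤ F.natDegree →
    ∀ h : Fin T → Fin K → ℕ, Function.Injective (fun x : Fin T × Fin K => h x.1 x.2) →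
    ∀ c : ℝ, 0 < c → ∃ κ : ℝ, 0 < κ ∧ ∃ C : ℝ, 0 < C ∧ ∃ X₀ : ℕ, ∀ X : ℕ, X₀ ≤ X → ∀ Y : ℕ,
      C * Real.log X ^ (T * K + 1) ≤ Y → C * (Y : ℝ) ^ F.natDegree ≤ X →
      ∀ R ⊆ Icc 1 Y, (∀ m ∈ R, Admissible F h m) → c * Y ≤ R.card →
      κ * X ≤ (({k ∈ Icc 1 X | ∃ (S : Finset (Fin T)) (σ τ : Fin T → Fin K), 5 * T ≤ 18 * S.card ∧
        κ * (Y / Real.log X ^ (T * K + 1)) ≤
          (((cluster F h r S σ τ k R).card : ℕ) : ℝ)}.card : ℕ) : ℝ) := by
  obtain ⟨M, hM1, hM2⟩ := Pool.Agent.Y827.RO.ceilM T hT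
  obtain ⟨K, hK, r, D₀, H⟩ := Pool.Agent.Helper74.FB.genF T M hM1
  refine ⟨K, by omega, r, fun F hd h hh c hc => ?_⟩
  set D : ℕ := D₀ with hD
  set W : ℕ := Pool.Agent.H410R2.WW D with hWdef
  have hW : 0 < W := Pool.Agent.Helper74.AE.WW_pos D
  have hWr : (0 : ℝ) < W := by exact_mod_cast hW
  obtain ⟨κ, hκ, C, hC, m₀, Y₀, H1⟩ := H D le_rfl F hd h hh ∅ (by simp) (by simp) 1 one_pos
    (c / (2 * W)) (by positivity)
  set C' : ℝ := C + Y₀ + 2 * W * m₀ / c + 1 with hC'
  have hC1 : (1 : ℝ) ≤ C := by exact_mod_cast hC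
  have hC'0 : 0 < C' := by positivity
  refine ⟨κ, hκ, C', hC'0, 3, ?_⟩
  intro X hX Y hY1 hY2 R hR hadm hRc
  have hXr : (3 : ℝ) ≤ X := by exact_mod_cast hX
  have hlogX : 1 ≤ Real.log X := by
    rw [← Real.log_exp 1]
    apply Real.log_le_log (Real.exp_pos 1)
    have := Real.exp_one_lt_d9
    linarith
  have hL1 : 1 ≤ Real.log X ^ (T * K + 1) := one_le_pow₀ hlogX
  have hYC : C' ≤ Y := (le_mul_of_one_le_right hC'0.le hL1).trans hY1
  have hcs : 0 ≤ 2 * (W : ℝ) * m₀ / c := by positivity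
  have hY₀ : Y₀ ≤ Y := by
    have : (Y₀ : ℝ) ≤ Y := by
      have := hC1
      linarith
    exact_mod_cast this
  have hCle : (C : ℝ) ≤ C' := by
    have : (0 : ℝ) ≤ Y₀ := Nat.cast_nonneg _
    linarith
  have hX2 : C * Y ^ F.natDegree ≤ X := by
    have h1 : ((C * Y ^ F.natDegree : ℕ) : ℝ) ≤ X := by
      push_cast
      refine le_trans ?_ hY2
      gcongr
    exact_mod_cast h1
  have hYnn : (0 : ℝ) ≤ Y := Nat.cast_nonneg Y
  have hLY : Real.log X ^ (T * K + 1) ≤ Y := by
    refine le_trans ?_ hY1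
    apply le_mul_of_one_le_left (by positivity)
    linarith
  -- a residue class
  obtain ⟨u, hu⟩ := Pool.Agent.Helper74.FB.class_of W hW R
  set R' : Finset ℕ := (R.filter (fun m => m % W = u)).filter (fun m => m₀ ≤ m) with hR'
  have hR'c : c / (2 * W) * (Y / Real.log Y ^ (∅ : Finset (ℤ × ℤ)).card) ≤ (R'.card : ℝ) := by
    rw [card_empty, pow_zero, div_one]
    have h1 : (R.filter (fun m => m % W = u)).card ≤ R'.card + m₀ := by
      have h2 : R'.card + ((R.filter (fun m => m % W = u)).filter (fun m => ¬ m₀ ≤ m)).card =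
          (R.filter (fun m => m % W = u)).card := by
        rw [hR']
        convert card_filter_add_card_filter_not (s := R.filter (fun m => m % W = u)) (fun m => m₀ ≤ m)
      have h3 : ((R.filter (fun m => m % W = u)).filter (fun m => ¬ m₀ ≤ m)).card ≤ m₀ := by
        calc _ ≤ (range m₀).card := card_le_card fun m hm => by
              rw [mem_range]
              have := (mem_filter.1 hm).2
              omega
          _ = m₀ := card_range _
      omega
    have h4 : ((R.filter (fun m => m % W = u)).card : ℝ) ≤ R'.card + m₀ := by exact_mod_cast h1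
    have h5 : c * Y / W ≤ (R.card : ℝ) / W := by gcongr
    have h6 : (m₀ : ℝ) ≤ c / (2 * W) * Y := by
      have h7 : 2 * W * m₀ / c ≤ (Y : ℝ) := by
        have : (0 : ℝ) ≤ Y₀ := Nat.cast_nonneg _
        linarith
      rw [div_le_iff₀ hc] at h7
      rw [div_mul_eq_mul_div, le_div_iff₀ (by positivity)]
      linarith
    have h8 : c * Y / W = c / (2 * W) * Y + c / (2 * W) * Y := by
      field_simp
      ring
    linarith
  have hR'R : R' ⊆ R := (filter_subset _ _).trans (filter_subset _ _)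
  have hR'g : R' ⊆ Pool.Agent.Helper74.OR.Rg ∅ 1 Y := by
    intro m hm
    unfold Pool.Agent.Helper74.OR.Rg
    exact mem_filter.2 ⟨hR (hR'R hm), by simp⟩
  -- the class of the constants
  have hex : ∃ v : ℤ, ∀ m ∈ R', ∀ p ∈ (Icc 1 D).filter Nat.Prime, ∀ g i,
      ¬ (p : ℤ) ∣ v + F.eval ((m : ℤ) + h g i) := by
    rcases R'.eq_empty_or_nonempty with h0 | ⟨m₁, hm₁⟩
    · exact ⟨0, fun m hm => by rw [h0] at hm; exact absurd hm (notMem_empty m)⟩
    · have h1 := hadm m₁ (hR'R hm₁)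
      unfold Admissible at h1
      choose! k hk using h1
      obtain ⟨v, hv⟩ := Pool.Agent.Helper74.FB.crt D k
      refine ⟨v, fun m hm p hp g i hdv => ?_⟩
      apply hk p (mem_filter.1 hp).2 g i
      have hpW : (p : ℤ) ∣ (W : ℤ) := by
        rw [hWdef, Pool.Agent.H410R2.WW]
        exact_mod_cast dvd_prod_of_mem _ hp
      have hmm : (W : ℤ) ∣ (m₁ : ℤ) - m := by
        have e1 : m % W = u := (mem_filter.1 (mem_filter.1 hm).1).2
        have e2 : m₁ % W = u := (mem_filter.1 (mem_filter.1 hm₁).1).2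
        have e3 : m ≡ m₁ [MOD W] := by
          unfold Nat.ModEq
          rw [e1, e2]
        exact (Int.natCast_modEq_iff.2 e3).dvd
      have h2 : (p : ℤ) ∣ F.eval ((m₁ : ℤ) + h g i) - F.eval ((m : ℤ) + h g i) := by
        refine dvd_trans ?_ (sub_dvd_eval_sub ((m₁ : ℤ) + h g i) ((m : ℤ) + h g i) F)
        have e : (m₁ : ℤ) + h g i - (m + h g i) = m₁ - m := by ring
        rw [e]
        exact hpW.trans hmm
      have h3 := dvd_add (dvd_sub hdv (hv p hp)) h2
      have e : v + F.eval ((m : ℤ) + h g i) - (v - k p) +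
          (F.eval ((m₁ : ℤ) + h g i) - F.eval ((m : ℤ) + h g i)) = F.eval ((m₁ : ℤ) + h g i) + k p := by
        ring
      rwa [e] at h3
  obtain ⟨v, hv⟩ := hex
  have h1 := H1 Y hY₀ X hX2 (by rw [card_empty, pow_zero, div_one]; exact hLY) R' hR'g
    (fun m hm => (mem_filter.1 hm).2) hR'c v hv
  refine h1.trans ?_
  rw [Nat.cast_le]
  apply card_le_card
  intro k hk
  obtain ⟨hk1, -, -, S, σ, τ, hS, hcl⟩ := mem_filter.1 hk
  refine mem_filter.2 ⟨hk1, S, σ, τ, ?_, ?_⟩
  · have h4 : (T : ℝ) ≤ (18 / 5) * (S.card : ℝ) :=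
      hM2.trans (mul_le_mul_of_nonneg_left (by exact_mod_cast hS) (by norm_num))
    have h5 : (5 : ℝ) * T ≤ 18 * S.card := by linarith
    exact_mod_cast h5
  · rw [card_empty, pow_zero, div_one] at hcl
    refine hcl.trans ?_
    rw [Nat.cast_le]
    apply card_le_card
    intro m hm
    unfold Pool.Agent.Helper74.FB.Cl at hm
    obtain ⟨hmR, h2, h3, h4⟩ := mem_filter.1 hm
    unfold cluster
    refine mem_filter.2 ⟨hR'R hmR, fun g hg => ?_, fun g => ?_, fun g i => ?_⟩
    · obtain ⟨q, h6, h7⟩ := h2 g hg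
      exact ⟨q, h6, by rw [h7]; ring⟩
    · obtain ⟨q, h6, h7, h8⟩ := h3 g
      exact ⟨q, h6, by rw [h7]; ring, h8⟩
    · obtain ⟨q, h6, h7, h8⟩ := h4 g i
      exact ⟨q, h6, by rw [h7]; ring, h8⟩

end Pool.Agent.Results.MP_4d57ea_nt.ClustersOfPrimeValues
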