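import Mathlib
import Pool.Agent.Helper74.FB.JQPrime

/-! # Primes `p` with all `F j (p) + k j` prime and with almost prime neighbours of the same kind

`F j` are `J` integer polynomials of degree `≥ 1`, for instance all equal to `x ^ 3`, and `H` is an admissible set
of shifts with a prescribed element `h₀`. For a positive proportion of the `J`-tuples of constants `k j ≤ X` there
are primes `p = m + h₀` with all `F j (p) + k j` prime such that for `r` further shifts `h ∈ H` all the numbers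
`m + h` and `F j (m + h) + k j` have at most two prime factors. -/

set_option autoImplicit false

namespace Pool.Agent.Results.MP_4d57ea_nt.PrimeSolutionsWithNeighbours

open Finset Polynomial

/-- the integer `z` is a positive prime -/
def IsPrime (z : ℤ) : Prop := ∃ q : ℕ, q.Prime ∧ (q : ℤ) = z

/-- the integer `z` is `> 1` and has at most two prime factors, counted with multiplicity -/
def AlmostPrime (z : ℤ) : Prop := ∃ q : ℕ, 1 < q ∧ (q : ℤ) = z ∧ q.primeFactorsList.length ≤ 2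

/-- the set `H` of shifts is admissible for the polynomials `F j`: for every prime `p` there are a class `v` and
classes `w j` such that none of the numbers `v + h` and `F j (v + h) + w j`, `h ∈ H`, is divisible by `p` -/
def Admissible {J : ℕ} (F : Fin J → ℤ[X]) (H : Finset ℕ) : Prop :=
  ∀ p : ℕ, p.Prime → ∃ v : ℤ, (∀ h ∈ H, ¬ (p : ℤ) ∣ v + h) ∧
    ∀ j, ∃ w : ℤ, ∀ h ∈ H, ¬ (p : ℤ) ∣ (F j).eval (v + h) + w

open Classical in
/-- the `m ∈ [Y / 16, Y]` such that `p = m + h₀` and all the `F j (p) + k j` are prime and for every `h ∈ P` the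
numbers `m + h` and all the `F j (m + h) + k j` have at most two prime factors -/
noncomputable def cluster {J : ℕ} (F : Fin J → ℤ[X]) (h₀ : ℕ) (P : Finset ℕ) (k : Fin J → ℕ) (Y : ℕ) :
    Finset ℕ :=
  (Icc 1 Y).filter (fun m : ℕ => Y ≤ 16 * m ∧
    ((m + h₀).Prime ∧ ∀ j, IsPrime ((F j).eval ((m + h₀ : ℕ) : ℤ) + k j)) ∧
    ∀ h ∈ P, AlmostPrime ((m + h : ℕ) : ℤ) ∧ ∀ j, AlmostPrime ((F j).eval ((m + h : ℕ) : ℤ) + k j))

/-- there are `r` shifts in `H` different from `h₀` with at least `Y / (log X) ^ A` clusters -/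
def HasClusters {J : ℕ} (F : Fin J → ℤ[X]) (H : Finset ℕ) (h₀ A r X Y : ℕ) (k : Fin J → ℕ) : Prop :=
  ∃ P ⊆ H.erase h₀, P.card = r ∧ (Y : ℝ) / Real.log X ^ A ≤ (((cluster F h₀ P k Y).card : ℕ) : ℝ)

open Classical in
/-- **Prime solutions with almost prime solutions as neighbours.** -/
theorem result (J r : ℕ) (hJ : 1 ≤ J) : ∃ K A : ℕ, ∀ F : Fin J → ℤ[X], (∀ j, 1 ≤ (F j).natDegree) →
    ∀ H : Finset ℕ, K ≤ H.card → Admissible F H → ∀ h₀ ∈ H,
    ∃ κ : ℝ, 0 < κ ∧ ∃ X₀ : ℕ, ∀ X : ℕ, X₀ ≤ X → ∀ Y : ℕ,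
      Real.log X ^ A ≤ Y → (∀ j, (Y : ℝ) ^ (F j).natDegree ≤ κ * X) →
      κ * (X : ℝ) ^ J ≤
        (({k ∈ Fintype.piFinset (fun _ : Fin J => Icc 1 X) | HasClusters F H h₀ A r X Y k}.card : ℕ) : ℝ) := by
  obtain ⟨K, A, h1⟩ := Pool.Agent.Helper74.FB.primeJQ J r
  refine ⟨K, A, fun F hF H hH hadm h₀ hh₀ => ?_⟩
  obtain ⟨κ, hκ, X₀, h2⟩ := h1 F hF H hH h₀ hh₀ (by
    intro p hp
    obtain ⟨v, hv, hw⟩ := hadm p hp
    refine ⟨v, hv, fun j => ?_⟩
    obtain ⟨w, hw'⟩ := hw j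
    refine ⟨w, fun h hh => ?_⟩
    rw [add_comm]
    exact hw' h hh)
  refine ⟨κ, hκ, X₀, fun X hX Y hY1 hY2 => ?_⟩
  have hYX : (Y : ℝ) ≤ κ * X := by
    obtain ⟨j⟩ : Nonempty (Fin J) := ⟨⟨0, hJ⟩⟩
    refine le_trans ?_ (hY2 j)
    rcases Nat.eq_zero_or_pos Y with h0 | h0
    · rw [h0, Nat.cast_zero, zero_pow (by have := hF j; omega)]
    · have h3 : (1 : ℝ) ≤ Y := by exact_mod_cast h0
      calc (Y : ℝ) = (Y : ℝ) ^ 1 := (pow_one _).symm
        _ ≤ _ := pow_le_pow_right₀ h3 (hF j)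
  refine (h2 X hX Y hY1 hYX hY2).trans ?_
  rw [Nat.cast_le]
  apply card_le_card
  intro k hk
  obtain ⟨hk1, hk2, P, hP, hPc, hcl⟩ := mem_filter.1 hk
  refine mem_filter.2 ⟨hk1, P, hP, hPc, hcl.trans ?_⟩
  rw [Nat.cast_le]
  apply card_le_card
  intro m hm
  obtain ⟨hm1, hm2, hm3, hm4, hm5⟩ := mem_filter.1 hm
  unfold cluster
  refine mem_filter.2 ⟨hm1, hm2, ⟨hm3, fun j => ?_⟩, fun h hh => ⟨?_, fun j => ?_⟩⟩
  · obtain ⟨q, hq, hq2⟩ := hm4 j
    refine ⟨q, hq, ?_⟩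
    rw [hq2]
    push_cast
    ring
  · obtain ⟨q, hq, hq2, hq3⟩ := (hm5 h hh).1
    refine ⟨q, hq, ?_, hq3⟩
    rw [hq2]
    push_cast
    ring
  · obtain ⟨q, hq, hq2, hq3⟩ := (hm5 h hh).2 j
    refine ⟨q, hq, ?_, hq3⟩
    rw [hq2]
    push_cast
    ring

end Pool.Agent.Results.MP_4d57ea_nt.PrimeSolutionsWithNeighbours
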