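import Mathlib
import Pool.Agent.Helper74.FB.JPrime

/-! # Simultaneous prime values of `F j (p) + k j` at primes `p` with bounded distances

`F j` are `J` integer polynomials of degree `≥ 1`, for instance all equal to `x ^ 3`. For a positive proportion of
the `J`-tuples of constants `k j ≤ X` there are `r` primes `p` in an interval of bounded length (as small as a
power of `log X`) such that all the numbers `F j (p) + k j` are prime. -/

set_option autoImplicit false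

namespace Pool.Agent.Results.MP_4d57ea_nt.SimultaneousValuesAtClosePrimes

open Finset Polynomial

/-- the integer `z` is a positive prime -/
def IsPrime (z : ℤ) : Prop := ∃ q : ℕ, q.Prime ∧ (q : ℤ) = z

open Classical in
/-- the `m ∈ [Y / 16, Y]` such that for every `h ∈ S` the number `p = m + h` and all the numbers
`F j (p) + k j` are prime -/
noncomputable def clusters {J : ℕ} (F : Fin J → ℤ[X]) (S : Finset ℕ) (k : Fin J → ℕ) (Y : ℕ) : Finset ℕ :=
  (Icc 1 Y).filter (fun m : ℕ => Y ≤ 16 * m ∧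
    ∀ h ∈ S, (m + h).Prime ∧ ∀ j, IsPrime ((F j).eval ((m + h : ℕ) : ℤ) + k j))

/-- there is a set `S ⊆ [1, H]` of `r` shifts with at least `Y / (log X) ^ A` clusters -/
def HasClusters {J : ℕ} (F : Fin J → ℤ[X]) (r H A X Y : ℕ) (k : Fin J → ℕ) : Prop :=
  ∃ S ⊆ Icc 1 H, S.card = r ∧ (Y : ℝ) / Real.log X ^ A ≤ (((clusters F S k Y).card : ℕ) : ℝ)

open Classical in
/-- **Simultaneous prime values at primes with bounded distances.** -/
theorem result (J r : ℕ) (hJ : 1 ≤ J) (hr : 1 ≤ r) : ∃ H A : ℕ, ∀ F : Fin J → ℤ[X],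
    (∀ j, 1 ≤ (F j).natDegree) → ∃ κ : ℝ, 0 < κ ∧ ∃ X₀ : ℕ, ∀ X : ℕ, X₀ ≤ X → ∀ Y : ℕ,
      Real.log X ^ A ≤ Y → (∀ j, (Y : ℝ) ^ (F j).natDegree ≤ κ * X) →
      κ * (X : ℝ) ^ J ≤
        (({k ∈ Fintype.piFinset (fun _ : Fin J => Icc 1 X) | HasClusters F r H A X Y k}.card : ℕ) : ℝ) := by
  obtain ⟨H, A, h1⟩ := Pool.Agent.Helper74.FB.primeJ J r hr
  refine ⟨H, A, fun F hF => ?_⟩
  obtain ⟨κ, hκ, X₀, h2⟩ := h1 F hF
  refine ⟨κ, hκ, X₀, fun X hX Y hY1 hY2 => ?_⟩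
  have hYX : (Y : ℝ) ≤ κ * X := by
    obtain ⟨j⟩ : Nonempty (Fin J) := ⟨⟨0, hJ⟩⟩
    refine le_trans ?_ (hY2 j)
    rcases Nat.eq_zero_or_pos Y with h0 | h0
    · rw [h0, Nat.cast_zero, zero_pow (by have := hF j; omega)]
    · have h3 : (1 : ℝ) ≤ Y := by exact_mod_cast h0
      calc (Y : ℝ) = (Y : ℝ) ^ 1 := (pow_one _).symm
        _ ≤ _ := pow_le_pow_right₀ h3 (hF j)
  refine (h2 X hX Y hY1 hYX hY2).trans ?_
  rw [Nat.cast_le]
  apply card_le_card
  intro k hk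
  obtain ⟨hk1, hk2, S, hS, hSc, hcl⟩ := mem_filter.1 hk
  refine mem_filter.2 ⟨hk1, S, hS, hSc, hcl.trans ?_⟩
  rw [Nat.cast_le]
  apply card_le_card
  intro m hm
  obtain ⟨hm1, hm2, hm3⟩ := mem_filter.1 hm
  unfold clusters
  refine mem_filter.2 ⟨hm1, hm2, fun h hh => ?_⟩
  obtain ⟨h4, h5⟩ := hm3 h hh
  refine ⟨h4, fun j => ?_⟩
  obtain ⟨q, hq, hq2⟩ := h5 j
  refine ⟨q, hq, ?_⟩
  rw [hq2]
  push_cast
  ring

end Pool.Agent.Results.MP_4d57ea_nt.SimultaneousValuesAtClosePrimes
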